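import Pool.Agent.Lib.OD.Pos
import Pool.Agent.Lib.OD.Neg

set_option autoImplicit false

open MeasureTheory Metric Set

namespace Pool.Agent.Results.MP_89b2fa_an.OrliczThreshold

/-- The Euclidean plane. -/
abbrev Plane : Type := EuclideanSpace ℝ (Fin 2)

/-- Lebesgue measure on the open disc of radius `R` centred at the origin. -/
noncomputable def disc (R : ℝ) : Measure Plane := volume.restrict (ball 0 R)

/-- `h` is a smooth function with compact support inside the open disc of radius `R`. -/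
def IsTest (R : ℝ) (h : Plane → ℝ) : Prop :=
  ContDiff ℝ ((⊤ : ℕ∞) : WithTop ℕ∞) h ∧ HasCompactSupport h ∧ tsupport h ⊆ ball 0 R

/-- `u` lies in `W^1_2` of the disc and `G` is its weak gradient. -/
def IsSobolev (R : ℝ) (u : Plane → ℝ) (G : Plane → Plane) : Prop :=
  MemLp u 2 (disc R) ∧ MemLp G 2 (disc R) ∧
    ∀ h, IsTest R h → ∀ i : Fin 2,
      ∫ x, u x * fderiv ℝ h x (EuclideanSpace.single i 1) ∂(disc R)
        = - ∫ x, G x i * h x ∂(disc R)

/-- `u` is a weak solution in `W^1_2` of `-Δu + b·∇u = 0` on the disc. -/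
def IsSolution (R : ℝ) (b : Plane → Plane) (u : Plane → ℝ) : Prop :=
  ∃ G : Plane → Plane, IsSobolev R u G ∧
    ∀ h, IsTest R h → ∫ x, inner ℝ (G x) (gradient h x + h x • b x) ∂(disc R) = 0

/-- `b` is a measurable drift in `L_2` with `∫ |b|^2 W(ln(e + |b|)) dx` finite on the disc. -/
def InClass (W : ℝ → ℝ) (R : ℝ) (b : Plane → Plane) : Prop :=
  Measurable b ∧ MemLp b 2 (disc R) ∧
    Integrable (fun x => ‖b x‖ ^ 2 * W (Real.log (Real.exp 1 + ‖b x‖))) (disc R)

/-- `u` agrees almost everywhere on the disc with a function continuous on the disc. -/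
def IsCont (R : ℝ) (u : Plane → ℝ) : Prop :=
  ∃ v : Plane → ℝ, ContinuousOn v (ball 0 R) ∧ u =ᵐ[disc R] v

/-- For a positive nondecreasing weight `W` on `[1, ∞)` with `W(t)/t` nonincreasing, these are
equivalent: all weak solutions with drift in the class of `W` are continuous; all bounded ones
are; `∫_1^∞ W(t)/t^2 dt` diverges. -/
theorem result (W : ℝ → ℝ) (hpos : ∀ t, 1 ≤ t → 0 < W t) (hmono : MonotoneOn W (Ici 1))
    (hanti : AntitoneOn (fun t => W t / t) (Ici 1)) (R : ℝ) (hR : 0 < R) :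
    List.TFAE
      [∀ b u, InClass W R b → IsSolution R b u → IsCont R u,
        ∀ b u, InClass W R b → IsSolution R b u → MemLp u ⊤ (disc R) → IsCont R u,
        ¬ IntegrableOn (fun t => W t / t ^ 2) (Ioi 1)] := by
  have hW : Pool.Agent.Lib.OD.Wt W := ⟨hpos, hmono, hanti⟩
  have h1 : ¬ IntegrableOn (fun t => W t / t ^ 2) (Ioi 1) →
      ∀ b u, InClass W R b → IsSolution R b u → IsCont R u := by
    rintro hi b u ⟨-, hb, hI⟩ ⟨G, ⟨hu, hG, hw⟩, he⟩
    exact Pool.Agent.Lib.OD.pos_main hW hi hb hI hu hG (fun h a1 a2 a3 => hw h ⟨a1, a2, a3⟩)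
      fun h a1 a2 a3 => he h ⟨a1, a2, a3⟩
  have h2 : (∀ b u, InClass W R b → IsSolution R b u → MemLp u ⊤ (disc R) → IsCont R u) →
      ¬ IntegrableOn (fun t => W t / t ^ 2) (Ioi 1) := by
    intro h hi
    obtain ⟨b, u, G, h0, h1, h2, h3, h4, h5, h6, h7, h8⟩ := Pool.Agent.Lib.OD.neg_main hW hi hR
    exact h8 (h b u ⟨h1, h2, h0⟩ ⟨G, ⟨h3, h4, fun h hh => h5 h hh.1 hh.2.1 hh.2.2⟩,
      fun h hh => h7 h hh.1 hh.2.1 hh.2.2⟩ h6)
  tfae_have 1 → 2 := fun h b u a1 a2 _ => h b u a1 a2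
  tfae_have 2 → 3 := h2
  tfae_have 3 → 1 := h1
  tfae_finish

end Pool.Agent.Results.MP_89b2fa_an.OrliczThreshold
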